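import Pool.Agent.R294.DPR6

/-!
# MP_01c081_pr, Q1: condition (T) is not necessary for recurrence

The definitions used (file `Pool/Agent/R294/DPP1.lean`, and `CondT` in `DPR5.lean`):

* `Env = ℤ × ℤ → Bool`, `shift v ω y = ω (v + y)`;
* `IsDPP Q`: `Q` is a probability measure on `Env`, `shift (1,0)` and `shift (0,1)` are both
  ergodic (and measure preserving) for `Q`, and `Q {ω | ∀ x, ω x = false} < 1`;
* `O0 = {ω | ω 0 = true}`, `palm Q = Q(· | O0)`;
* `gap ω e = min {k > 0 : ω (k e) = 1}`;
* `step ω v d = v + gap (shift v ω) e • e`, where `e = dir d` is one of the four unit vectors;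
* `walk ω ξ 0 = 0`, `walk ω ξ (n+1) = step ω (walk ω ξ n) (ξ n)`;
* `dirLaw`: the law of an independent sequence of uniform elements of the four directions;
* `CondT Q`: there is `C > 0` with
  `(∑_{k ≥ N} k P(gap · e = k)) / E_P (gap · e) ≤ C / N` for `e = (1,0), (0,1)` and all `N ≥ 1`,
  where `P = palm Q`.
-/

set_option autoImplicit false

namespace Pool.Agent.Results.MP_01c081_pr.RecurrentNotT

open MeasureTheory Pool.Agent.R294.DPP

/-- There is a discrete point process on `ℤ²` for which the random walk is recurrent but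
condition (T) fails. -/
theorem result : ∃ Q : Measure Env, IsDPP Q ∧ 0 < Q O0 ∧
    (∀ᵐ ω ∂(palm Q), ∀ᵐ ξ ∂dirLaw, ∃ n : ℕ, 1 ≤ n ∧ walk ω ξ n = 0) ∧ ¬ CondT Q :=
  Pool.Agent.R294.DPP.mainB

end Pool.Agent.Results.MP_01c081_pr.RecurrentNotT
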